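import Pool.Agent.Q78.WI.Stm

/-!
Lemma job WI-C2 of project WI (helper78), proved by helper130: continuity and positivity of `psi`
and `fac`.
-/

set_option autoImplicit false

open MeasureTheory ProbabilityTheory Filter Topology Set
open scoped NNReal InnerProductSpace Matrix

namespace Pool.Agent.Q130.WI

open Pool.Agent.Q78.WI

universe u v

theorem c2 (hA3 : S_A3.{u}) (hC3 : S_C3.{u}) : S_C2.{u} := by
  intro H _ _ _ T hT Q hQ α d g w hw
  let M : ℝ → Matrix (Fin d) (Fin d) ℝ := fun s => w⁻¹ + gram T Q g (1 - s)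
  have hMpd : ∀ s ∈ Icc (0 : ℝ) 1, (M s).PosDef := fun s hs =>
    hw.inv.add_posSemidef ((hA3 H T hT Q hQ).1 d g (1 - s) (by linarith [hs.2]))
  have hdpos : ∀ s ∈ Icc (0 : ℝ) 1, 0 < (M s).det := fun s hs => (hMpd s hs).det_pos
  have hent : ∀ i j, ContinuousOn (fun s => M s i j) (Icc (0 : ℝ) 1) := by
    intro i j
    have h1 : ContinuousOn (fun s => gram T Q g (1 - s) i j) (Icc (0 : ℝ) 1) := fun s hs =>
      (hC3 H T hT Q d g s hs i j).continuousWithinAt
    exact continuousOn_const.add h1
  have hM : ContinuousOn M (Icc (0 : ℝ) 1) := by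
    rw [continuousOn_iff_continuous_restrict]
    exact continuous_matrix fun i j => continuousOn_iff_continuous_restrict.1 (hent i j)
  have hdet : ContinuousOn (fun s => (M s).det) (Icc (0 : ℝ) 1) :=
    (Continuous.matrix_det continuous_id).comp_continuousOn hM
  have hadj : ContinuousOn (fun s => (M s).adjugate) (Icc (0 : ℝ) 1) :=
    (Continuous.matrix_adjugate continuous_id).comp_continuousOn hM
  refine ⟨fun s hs => ⟨hdpos s hs, (hMpd s hs).inv.posSemidef⟩, fun i j => ?_, ?_, fun x => ?_⟩
  · have h1 : (fun s => psi T Q g w s i j) = fun s => ((M s).det)⁻¹ * (M s).adjugate i j := by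
      funext s
      show (M s)⁻¹ i j = _
      rw [Matrix.inv_def, Ring.inverse_eq_inv']
      rfl
    rw [h1]
    have h2 : ContinuousOn (fun s => (M s).adjugate i j) (Icc (0 : ℝ) 1) :=
      (Continuous.matrix_elem continuous_id i j).comp_continuousOn hadj
    exact (hdet.inv₀ fun s hs => (hdpos s hs).ne').mul h2
  · exact hdet.rpow_const fun s hs => Or.inl (hdpos s hs).ne'
  · refine (hT.cont x).comp (by fun_prop) fun s hs => ?_
    show (0 : ℝ) ≤ 1 - s
    linarith [hs.2]

end Pool.Agent.Q130.WI
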